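import Pool.Agent.N598.ST.RMain2

/-!
# Rubin's integral Stark conjecture: a local-global principle (helper598)

Rubin's conjecture for `H / K`, `S`, `T`, `v_1, ..., v_r` is the conjunction of its `l`-parts (`l`
prime), and the `l`-part for `H / K` follows from the `l`-parts for the subextensions `L / K` whose
Galois group is the product of an `l`-group and a cyclic group of order prime to `l`.
-/

set_option autoImplicit false

namespace Pool.Agent.Results.MP_dd9835_nt.LocalGlobal

open NumberField IsDedekindDomain Pool.Agent.N598.ST

/-- Let `K` be a number field, `r ≥ 1`, `S` a finite set of places of `K`, `T` a finite set of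
finite places and `v_1, ..., v_r` places of `K`.
(1) Let `H / K` be abelian, with `RData K H r S T v` (the hypotheses of Rubin's conjecture), and `l`
a prime. If the `l`-part of Rubin's conjecture holds for all extensions `L / K` which embed in `H`
and whose Galois group is the product of an `l`-group and a cyclic group of order prime to `l`, then
it holds for `H / K`.
(2) Rubin's conjecture holds for all abelian `H / K` (with `RData K H r S T v`) if and only if for
all primes `l` its `l`-part holds for all such `H / K` whose Galois group is the product of an
`l`-group and a cyclic group of order prime to `l`. -/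
theorem result (K : Type) [Field K] [NumberField K] (r : ℕ) (hr : 1 ≤ r) (S : Finset (Place K))
    (T : Finset (HeightOneSpectrum (𝓞 K))) (v : Fin r → Place K) :
    (∀ (H : Type) [Field H] [NumberField H] [Algebra K H] [IsAbelianGalois K H],
      RData K H r S T v → ∀ l : ℕ, l.Prime →
        (∀ (L : Type) [Field L] [NumberField L] [Algebra K L] [IsAbelianGalois K L],
          Nonempty (L →ₐ[K] H) → CyclicOutside l Gal(L/K) → RubinPart K L l r S T v) →
            RubinPart K H l r S T v) ∧
    ((∀ (H : Type) [Field H] [NumberField H] [Algebra K H] [IsAbelianGalois K H],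
        RData K H r S T v → Rubin K H r S T v) ↔
      (∀ l : ℕ, l.Prime → ∀ (H : Type) [Field H] [NumberField H] [Algebra K H]
        [IsAbelianGalois K H], RData K H r S T v → CyclicOutside l Gal(H/K) →
          RubinPart K H l r S T v)) := by
  obtain ⟨r, rfl⟩ : ∃ r', r = r' + 1 := ⟨r - 1, by omega⟩
  have h1 : ∀ (H : Type) [Field H] [NumberField H] [Algebra K H] [IsAbelianGalois K H],
      RData K H (r + 1) S T v → ∀ l : ℕ, l.Prime →
        (∀ (L : Type) [Field L] [NumberField L] [Algebra K L] [IsAbelianGalois K L],
          Nonempty (L →ₐ[K] H) → CyclicOutside l Gal(L/K) → RubinPart K L l (r + 1) S T v) →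
            RubinPart K H l (r + 1) S T v := by
    intro H _ _ _ _ hD l hl hyp
    exact rubin_part_of_sub l hl H hD.split hyp
  refine ⟨h1, ?_, ?_⟩
  · intro h l hl H _ _ _ _ hD _
    exact (rubin_iff_parts (r + 1) S T v).1 (h H hD) l hl
  · intro h H _ _ _ _ hD
    rw [rubin_iff_parts]
    intro l hl
    refine h1 H hD l hl ?_
    intro L _ _ _ _ hL hc
    obtain ⟨f⟩ := hL
    let _ : Algebra L H := f.toRingHom.toAlgebra
    have : IsScalarTower K L H := IsScalarTower.of_algebraMap_eq' f.comp_algebraMap.symm
    exact h l hl L ⟨hD.disj, hD.arch, fun q hq => (hD.ram q hq).sub H, hD.inj, hD.mem,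
      fun i => (hD.split i).sub H, hD.card, hD.char⟩ hc

end Pool.Agent.Results.MP_dd9835_nt.LocalGlobal
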